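import Pool.Agent.H70.GS.Targets
import Pool.Agent.H48.OQ.FMG

/-!
Module FMU: the instances as formulas.
-/

set_option autoImplicit false

namespace Pool.Agent.H58.GS.FMU

open Finset Pool.Agent.H6.NB Pool.Agent.H70.OQ Pool.Agent.H70.GS
open Pool.Agent.H48.OQ.FMG

lemma fm_succ {V : Type} {S t d : ℕ} {f : (V → Bool) → Bool} (hS : 1 ≤ S) (h : Fm S t d f) :
    Fm S t (d + 1) f :=
  ⟨1, fun _ => f, fun _ => true, hS, fun _ => h, fun _ => ⟨fun h => ⟨0, h⟩, fun ⟨_, h⟩ => h⟩⟩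

lemma fm_le {V : Type} {S t d k : ℕ} {f : (V → Bool) → Bool} (hS : 1 ≤ S) (hd : d ≤ k)
    (h : Fm S t d f) : Fm S t k f := by
  induction hd with
  | refl => exact h
  | step _ ih => exact fm_succ hS ih

lemma gam_two {n : ℕ} (hn : 2 ≤ n) : 2 ≤ gam n := by
  unfold gam
  rw [Nat.le_sqrt]
  omega

lemma b_two {n : ℕ} (hn : 2 ≤ n) : 2 ≤ 2 ^ (gam n / 2) := by
  have h := gam_two hn
  calc 2 = 2 ^ 1 := rfl
    _ ≤ 2 ^ (gam n / 2) := Nat.pow_le_pow_right (by norm_num) (by omega)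

lemma b_sq (n : ℕ) : (2 ^ (gam n / 2)) ^ 2 ≤ 2 ^ gam n := by
  rw [← pow_mul]
  exact Nat.pow_le_pow_right (by norm_num) (by omega)

open Classical in
theorem fmu (h1 : T_CLH) (h2 : Pool.Agent.H6.NB.T_COD) (h3 : Pool.Agent.H6.NB.T_LVL)
    (h4 : Pool.Agent.H6.NB.T_FIS) : T_FMU := by
  intro dd prog k n a t h o hprog hdd hn hnt hh hnb
  have hlen : ∀ s : Om n (2 ^ a), s.1.length < t ^ 2 := fun s => lt_of_lt_of_le s.2.2 hnt
  have ht : 1 ≤ t := by
    by_contra h
    have ht0 : t = 0 := by omega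
    subst ht0
    have : 0 < n ^ 2 ^ a := by positivity
    omega
  obtain ⟨Ws, hW1, hW2⟩ := h4.1 (t - 1)
  rw [Nat.sub_add_cancel ht] at hW1
  have hsq : ∀ (s : Om n (2 ^ a)) (x : ℕ), x ^ 2 ≤ s.1.length → x < t := by
    intro s x hx
    by_contra hcon
    push Not at hcon
    have := Nat.pow_le_pow_left hcon 2
    have := hlen s
    omega
  have hfm : ∀ s : Om n (2 ^ a), Fm (2 ^ t) t k
      (fun y => decide (accv dd prog s.1 (fun w => y (clg 1 n (2 ^ a) o w)))) := by
    intro s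
    have := (alt_fm (V := Cg 1 n (2 ^ a)) (fun w => w.length ^ 2 ≤ s.1.length) t Ws hW1
      (fun w hw => hW2 w (by have := hsq s _ hw; omega)) (dd s.1)
      (fun ws y => (prog s.1 ws).eval (fun w => y (clg 1 n (2 ^ a) o w)) = true) (by
        intro ws hl hws
        refine ⟨cv (clg 1 n (2 ^ a) o) (prog s.1 ws), ?_, fun y => ?_⟩
        · rw [cv_depth]
          exact (hsq s _ (hprog s.1 ws hl hws).1).le
        · rw [cv_eval])).1
    exact fm_le Nat.one_le_two_pow (hdd s) this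
  refine ⟨fun s y => decide (accv dd prog s.1 (fun w => y (clg 1 n (2 ^ a) o w))),
    ⟨hfm, ?_, ?_⟩, ⟨hfm, ?_, ?_⟩, ?_⟩
  · intro s y y' hy
    rw [decide_eq_decide]
    unfold accv acck
    refine alt_congr _ (dd s.1) true _ _ (fun ws hl hws => ?_)
    obtain ⟨-, m, hm, hsh⟩ := hprog s.1 ws hl hws
    rw [evc (prog s.1 ws) m (fun w => y (clg 1 n (2 ^ a) o w))
      (fun w => y' (clg 1 n (2 ^ a) o w)) hsh]
    intro w hw
    exact hy _ (low_clg h1 h3 h2 hn o s w m hm hw)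
  · intro s
    exact (h3 n a hn).2 s
  · intro s y y' hy
    rw [decide_eq_decide]
    unfold accv acck
    refine alt_congr _ (dd s.1) true _ _ (fun ws hl hws => ?_)
    obtain ⟨-, m, hm, hsh⟩ := hprog s.1 ws hl hws
    rw [evc (prog s.1 ws) m (fun w => y (clg 1 n (2 ^ a) o w))
      (fun w => y' (clg 1 n (2 ^ a) o w)) hsh]
    intro w hw
    refine hy _ ?_
    rcases (h1 1 n (2 ^ a) o).2.2.2 w with ⟨p, h5⟩ | ⟨s', h5⟩ | ⟨s', i, v, h5⟩ | h5
    · rw [h5, (h1 1 n (2 ^ a) o).1 p]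
      trivial
    · have hl := key_len s'.1
      rw [← h5] at hl
      rw [h5, (h1 1 n (2 ^ a) o).2.1 s']
      change lc n s'.1 < lc n s.1 ∨ lc n s'.1 = 0
      have hs' : s'.1.length ≤ m := by omega
      have hsq' : s'.1.length ^ 2 ≤ s.1.length := (Nat.pow_le_pow_left hs' 2).trans hm
      by_cases hc : s'.1.length < 2 ^ gam n
      · right
        unfold lc
        rw [if_pos hc]
      · left
        push Not at hc
        have hpos : 1 ≤ 2 ^ gam n := Nat.one_le_two_pow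
        have hle : s'.1.length ≤ s.1.length :=
          (Nat.le_self_pow two_ne_zero _).trans hsq'
        have hc2 : ¬ s.1.length < 2 ^ gam n := by omega
        unfold lc
        rw [if_neg (by omega), if_neg hc2]
        exact (h3 (2 ^ (gam n / 2)) 0 (b_two hn)).1 s.1 s'.1 ((b_sq n).trans hc) hsq'
    · rw [h5, (h1 1 n (2 ^ a) o).2.2.1 s' i v]
      trivial
    · rw [h5]
      trivial
  · intro s
    change lc n s.1 < h
    by_cases hc : s.1.length < 2 ^ gam n
    · unfold lc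
      rw [if_pos hc]
      omega
    · unfold lc
      rw [if_neg hc]
      push Not at hc
      exact (h3 (2 ^ (gam n / 2)) h (b_two hn)).2
        ⟨s.1, (b_sq n).trans hc, lt_of_lt_of_le s.2.2 hnb⟩
  · intro s T e P
    simp only [accG, decide_eq_true_eq]

end Pool.Agent.H58.GS.FMU
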