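import Pool.Agent.H70.GS.Targets

/-!
Module LIM: the limit of the stages.
-/

set_option autoImplicit false

namespace Pool.Agent.H58.GS.LIM

open Finset Pool.Agent.H6.NB Pool.Agent.H70.OQ Pool.Agent.H70.GS

lemma pow_bd (g : ℕ) : (g + 1) ^ 2 ≤ 3 * 2 ^ g + 1 := by
  induction g with
  | zero => norm_num
  | succ g ih =>
    have h1 : 2 * g + 3 ≤ 3 * 2 ^ g := by
      have h2 : g + 1 ≤ 2 ^ g := Nat.lt_two_pow_self
      omega
    have h3 : (g + 1 + 1) ^ 2 = (g + 1) ^ 2 + (2 * g + 3) := by ring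
    have h4 : 2 ^ (g + 1) = 2 * 2 ^ g := by ring
    rw [h3, h4]
    omega

lemma lt_gam (n : ℕ) : n < 2 ^ gam n := by
  have h1 : 3 * n + 1 < (gam n + 1) ^ 2 := Nat.lt_succ_sqrt' _
  have h2 := pow_bd (gam n)
  omega

theorem bas_ne_key (u s' : List Bool) : false :: u ≠ key s' := by
  intro h
  unfold key at h
  have := (List.cons.inj h).1
  exact absurd this (by decide)

/-- the properties of the state before the stage `k` -/
structure Inv (n : ℕ) {ι : Type} (F : ι → Samp) (p : (List Bool → Bool) × (List Bool → Bool)) :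
    Prop where
  dec : ∀ s, Dec p.1 s
  one : OneWit p.1
  z : ∀ w : List Bool, n ≤ w.length → p.1 (false :: w) = false
  m : ∀ w : List Bool, p.2 w = true → 2 ^ Nat.sqrt w.length ≤ n
  o : ∀ i b w, p.2 w = true → 2 ^ Nat.sqrt w.length ≤ ((F i).out b).length

theorem lim (h1 : T_BLG) (h2 : T_LAH) (h3 : Pool.Agent.H6.NB.T_DCC)
    (h4 : Pool.Agent.H6.NB.T_INI) : T_LIM := by
  intro dd prog n e c C ε Q ι _ F hS hSP hn hdd hQ hcard hF hout
  -- one stage
  have step : ∀ (k : ℕ) (st : {p // Inv (n k) (F k) p}), ∃ st' : {p // Inv (n (k + 1)) (F (k + 1)) p},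
      (∀ w : List Bool, w.length < n k → st'.1.1 w = st.1.1 w ∧ st'.1.2 w = st.1.2 w) ∧
      ∀ σ' χ' O : List Bool → Bool, (∀ w : List Bool, w.length ≤ 2 ^ (gam (n k) * e k) →
        σ' w = st'.1.1 w ∧ χ' w = st'.1.2 w) → Bldg (Ae dd prog χ') σ' O →
      (∃ x : List Bool, x.length = n k ∧ ¬ Correct (Q k x) O (ulang O) x) ∧
      ∀ i, (F k i).prob (joinO O {s | accv dd prog s O})
        {s | ¬ (Ae dd prog χ' s O ↔ accv dd prog s O)} ≤
        (1 / 2) ^ (gam (n k) * c k) := by
    intro k st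
    obtain ⟨σ, χ, a1, a2, a3, a4, a5, a6⟩ := hSP k dd prog hS (hdd k) (Q k) (hQ k) (ι k) (F k)
      (hcard k) (hF k) st.1.1 st.1.2 st.2.dec st.2.one st.2.z st.2.m st.2.o
    refine ⟨⟨(σ, χ), a2, a3, ?_, ?_, ?_⟩, a1, a6⟩
    · intro w hw
      exact a4 w ((hn k).1.le.trans hw)
    · intro w hw
      exact (Nat.pow_le_pow_right (by norm_num) (a5 w hw)).trans (hn k).2.le
    · intro i b w hw
      exact (Nat.pow_le_pow_right (by norm_num) (a5 w hw)).trans (hout k i b)
  choose nx p1 p2 using step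
  have st0 : Inv (n 0) (F 0) (fun _ => false, fun _ => false) := by
    refine ⟨h4, ?_, fun _ _ => rfl, fun w hw => ?_, fun i b w hw => ?_⟩
    · intro x v v' _ _ h
      exact absurd h (by simp)
    · exact absurd hw (by simp)
    · exact absurd hw (by simp)
  let st : ∀ k, {p // Inv (n k) (F k) p} := fun k =>
    Nat.rec (motive := fun k => {p // Inv (n k) (F k) p}) ⟨_, st0⟩ (fun k s => nx k s) k
  have hst : ∀ k, st (k + 1) = nx k (st k) := fun k => rfl
  set σs : ℕ → List Bool → Bool := fun j => (st j).1.1 with hσs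
  set χs : ℕ → List Bool → Bool := fun j => (st j).1.2 with hχs
  have f1 : ∀ (j : ℕ) (w : List Bool), w.length < n j → σs (j + 1) w = σs j w ∧ χs (j + 1) w = χs j w := by
    intro j w hw
    exact p1 j (st j) w hw
  have f2 : ∀ j, n j < n (j + 1) := fun j => (lt_gam (n j)).trans (hn j).2
  have hmono : StrictMono n := strictMono_nat_of_lt_succ f2
  have f4 : ∀ j, j ≤ n j := fun j => hmono.le_apply
  have f5 : ∀ (j i : ℕ) (w : List Bool), j ≤ i → w.length < n j →
      σs i w = σs j w ∧ χs i w = χs j w := by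
    intro j i w hji hw
    induction i, hji using Nat.le_induction with
    | base => exact ⟨rfl, rfl⟩
    | succ i hi ih =>
      have h := f1 i w (lt_of_lt_of_le hw (hmono.monotone hi))
      exact ⟨h.1.trans ih.1, h.2.trans ih.2⟩
  let σ : List Bool → Bool := fun w => σs (w.length + 1) w
  let χ : List Bool → Bool := fun w => χs (w.length + 1) w
  have f6 : ∀ (j : ℕ) (w : List Bool), w.length < n j → σ w = σs j w ∧ χ w = χs j w := by
    intro j w hw
    change σs (w.length + 1) w = σs j w ∧ χs (w.length + 1) w = χs j w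
    rcases le_total j (w.length + 1) with h | h
    · exact f5 j _ w h hw
    · have := f5 (w.length + 1) j w h (lt_of_lt_of_le (Nat.lt_succ_self _) (f4 _))
      exact ⟨this.1.symm, this.2.symm⟩
  obtain ⟨O, hO⟩ := h1 (Ae dd prog χ) ((h2 dd prog hS).2 χ) σ
  have hOb : ∀ u, O (false :: u) = σ (false :: u) := by
    intro u
    rw [hO (false :: u)]
    have : ¬ ∃ s, false :: u = key s ∧ Ae dd prog χ s O := by
      rintro ⟨s, h, -⟩
      exact bas_ne_key _ _ h
    simp [this]
  refine ⟨σ, χ, O, hO, ?_, ?_, ?_⟩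
  · intro s
    obtain ⟨l, hl⟩ := h3 s
    have : Dec (σs (l + 1)) s := (st (l + 1)).2.dec s
    refine (hl σ (σs (l + 1)) fun w hw => (f6 (l + 1) w ?_).1).2 this
    have := f4 (l + 1)
    omega
  · intro x v v' hv hv' e1 e2
    rw [hOb] at e1 e2
    have hlen : ∀ u : List Bool, u.length = 2 * x.length →
        (false :: (x ++ u)).length < n (3 * x.length + 2) := by
      intro u hu
      rw [List.length_cons, List.length_append, hu]
      have := f4 (3 * x.length + 2)
      omega
    rw [(f6 _ _ (hlen v hv)).1] at e1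
    rw [(f6 _ _ (hlen v' hv')).1] at e2
    exact (st (3 * x.length + 2)).2.one x v v' hv hv' e1 e2
  · intro k
    refine p2 k (st k) σ χ O (fun w hw => ?_) hO
    exact f6 (k + 1) w (lt_of_le_of_lt hw (hn k).1)

end Pool.Agent.H58.GS.LIM
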