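import Pool.Agent.H70.GS.Targets
import Pool.Agent.H59.NB.BBV

/-!
Module SMP: the errors are rarely found.
-/

set_option autoImplicit false

namespace Pool.Agent.H58.GS.SMP

open Finset Pool.Agent.H6.NB Pool.Agent.H70.OQ Pool.Agent.H70.GS

open Classical in
theorem smp (h1 : T_BBC) : T_SMP := by
  intro X _ _ F O O' E M η hη hq ho
  set A : X → Finset F.alg.basis := fun x => univ.filter (fun i => F.out i ∈ E x) with hA
  set P : X → ℝ := fun x => ∑ i ∈ A x, ‖F.alg.state O F.alg.T i‖ ^ 2 with hP
  have hη2 : 0 < η / 2 := by positivity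
  have hstate : ∑ i, ‖F.alg.state O F.alg.T i‖ ^ 2 = 1 := by
    rw [← Pool.Agent.H59.NB.BBV.norm_ev_sq, Pool.Agent.H59.NB.BBV.norm_state, one_pow]
  -- the sum over all `x`
  have hsum : ∑ x, P x ≤ M := by
    have e1 : ∑ x, P x =
        ∑ i, ((univ.filter fun x => F.out i ∈ E x).card : ℝ) * ‖F.alg.state O F.alg.T i‖ ^ 2 := by
      simp only [hP, hA, Finset.sum_filter]
      rw [Finset.sum_comm]
      refine Finset.sum_congr rfl fun i _ => ?_
      rw [← Finset.sum_filter, Finset.sum_const, nsmul_eq_mul]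
    rw [e1]
    calc ∑ i, ((univ.filter fun x => F.out i ∈ E x).card : ℝ) * ‖F.alg.state O F.alg.T i‖ ^ 2
        ≤ ∑ i, (M : ℝ) * ‖F.alg.state O F.alg.T i‖ ^ 2 := by
          refine Finset.sum_le_sum fun i _ => mul_le_mul_of_nonneg_right ?_ (by positivity)
          have := ho i
          exact_mod_cast this
      _ = M := by rw [← Finset.mul_sum, hstate, mul_one]
  have hP0 : ∀ x, 0 ≤ P x := fun x => Finset.sum_nonneg fun i _ => by positivity
  have hZ1 : ((univ.filter fun x => η / 2 < P x).card : ℝ) ≤ 2 * M / η := by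
    have e1 : ((univ.filter fun x => η / 2 < P x).card : ℝ) * (η / 2) ≤ M := by
      refine le_trans ?_ hsum
      calc ((univ.filter fun x => η / 2 < P x).card : ℝ) * (η / 2)
          = ∑ x ∈ univ.filter (fun x => η / 2 < P x), η / 2 := by
            rw [Finset.sum_const, nsmul_eq_mul]
        _ ≤ ∑ x ∈ univ.filter (fun x => η / 2 < P x), P x := by
            refine Finset.sum_le_sum fun x hx => ?_
            rw [Finset.mem_filter] at hx
            exact hx.2.le
        _ ≤ ∑ x, P x :=
            Finset.sum_le_sum_of_subset_of_nonneg (Finset.filter_subset _ _) fun x _ _ => hP0 x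
    rw [le_div_iff₀ hη]
    linarith
  have hZ2 := (h1 X F.alg O O' M (η / 2) hη2 (fun i w hw => by
    have := hq i w hw
    refine le_trans (le_of_eq ?_) this
    rfl)).1
  set Z2 := univ.filter fun x => ∃ A : Finset F.alg.basis,
    η / 2 ≤ |∑ i ∈ A, ‖F.alg.state (O' x) F.alg.T i‖ ^ 2 -
      ∑ i ∈ A, ‖F.alg.state O F.alg.T i‖ ^ 2| with hZ2d
  have hsub : (univ.filter fun x => η < F.prob (O' x) (E x)) ⊆
      (univ.filter fun x => η / 2 < P x) ∪ Z2 := by
    intro x hx
    rw [Finset.mem_filter] at hx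
    rw [Finset.mem_union]
    by_cases hc : η / 2 < P x
    · left
      rw [Finset.mem_filter]
      exact ⟨Finset.mem_univ _, hc⟩
    · right
      rw [hZ2d, Finset.mem_filter]
      refine ⟨Finset.mem_univ _, A x, ?_⟩
      have h2 : η < ∑ i ∈ A x, ‖F.alg.state (O' x) F.alg.T i‖ ^ 2 := hx.2
      have h3 : P x = ∑ i ∈ A x, ‖F.alg.state O F.alg.T i‖ ^ 2 := rfl
      rw [← h3]
      refine le_trans ?_ (le_abs_self _)
      linarith
  have hcard : ((univ.filter fun x => η < F.prob (O' x) (E x)).card : ℝ) ≤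
      ((univ.filter fun x => η / 2 < P x).card : ℝ) + (Z2.card : ℝ) := by
    have := (Finset.card_le_card hsub).trans (Finset.card_union_le _ _)
    exact_mod_cast this
  refine hcard.trans (add_le_add hZ1 (le_trans ?_ (le_trans hZ2 (le_of_eq ?_))))
  · exact le_of_eq rfl
  · field_simp
    ring

end Pool.Agent.H58.GS.SMP
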